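import Pool.Agent.Helper58.DH.Goals
import Pool.Agent.Helper93.DG.K_SGN

/-!
# Project DH (MP_06d934_gt): packet L_SGN (the sign of the Kähler-Einstein metrics)
-/

set_option autoImplicit false

namespace Pool.Agent.Helper33.DH

open Pool.Agent.Helper58.DG Pool.Agent.Helper58.DH Finset

/-- The equations with the parameters as a vector. -/
def PN (ν : Fin 4 → ℝ) (w : Fin 6 → ℝ) : Fin 6 → ℝ := PC (ν 0) (ν 1) (ν 2) (ν 3) 1 w

/-- The metric with the parameters as a vector. -/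
def kn (ν : Fin 4 → ℝ) : Fin 6 → ℝ := kc (ν 0) (ν 1) (ν 2) (ν 3)

theorem pn_cd : ContDiff ℝ 1 (Function.uncurry PN) := by
  rw [contDiff_pi]
  intro i
  fin_cases i <;> simp [PN, PC, Function.uncurry_def] <;> fun_prop

theorem kn_cd : ContDiff ℝ 0 kn := by
  rw [contDiff_pi]
  intro i
  fin_cases i <;> simp [kn, kc] <;> fun_prop

/-- The Jacobian determinant at the Kähler-Einstein metric depends continuously on the parameters. -/
theorem g_cont : Continuous fun ν : Fin 4 → ℝ ↦ jac (PN ν) (kn ν) := by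
  have h : ContDiff ℝ 0 fun ν : Fin 4 → ℝ ↦ fderiv ℝ (PN ν) (kn ν) :=
    ContDiff.fderiv pn_cd kn_cd (by norm_num)
  exact ContinuousLinearMap.continuous_det.comp h.continuous

/-- The Jacobian matrix at the base point. -/
noncomputable def MQ : Matrix (Fin 6) (Fin 6) ℝ :=
  !![100 / 81, 5 / 162, 5 / 108, -(25 / 324), 40 / 81, -(40 / 81);
    10 / 81, -(85 / 162), 5 / 27, 25 / 81, 40 / 81, 40 / 81;
    125 / 162, 125 / 162, -(35 / 54), 0, 80 / 81, 0;
    -(1 / 6), 1 / 6, 0, -(13 / 54), 0, 16 / 27;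
    25 / 81, 25 / 324, 1 / 27, 0, -(29 / 324), 25 / 108;
    -(1 / 9), 1 / 36, 0, 5 / 81, 1 / 12, 35 / 324]

theorem MQ_det : MQ.det = 4531250 / 387420489 := by
  unfold MQ
  simp [Matrix.det_succ_row_zero, Fin.sum_univ_succ, Fin.succAbove]
  norm_num

/-- The base point. -/
noncomputable def qq : Fin 4 → ℝ := ![1 / 6, 1 / 6, 1 / 3, 0]

theorem kn_qq : kn qq = ![1 / 3, 4 / 3, 5 / 3, 1, 5 / 6, 1 / 2] := by
  have h0 : qq 0 = 1 / 6 := rfl
  have h1 : qq 1 = 1 / 6 := rfl
  have h2 : qq 2 = 1 / 3 := rfl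
  have h3 : qq 3 = 0 := rfl
  unfold kn
  rw [h0, h1, h2, h3]
  unfold kc
  norm_num

theorem jac_qq : jac (PN qq) (kn qq) = 4531250 / 387420489 := by
  rw [← MQ_det, kn_qq]
  have hd : DifferentiableAt ℝ (PN qq) ![1 / 3, 4 / 3, 5 / 3, 1, 5 / 6, 1 / 2] := by
    rw [differentiableAt_pi]
    intro i
    fin_cases i <;> simp [PN, PC] <;> fun_prop
  refine Pool.Agent.Helper93.DG.jac_of_lines MQ hd fun v i ↦ ?_
  fin_cases i <;> simp only [PN, PC, qq, Fin.zero_eta, Fin.mk_one, Fin.reduceFinMk, Matrix.cons_val,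
      Pi.add_apply, Pi.smul_apply, smul_eq_mul] <;>
    simp (disch := fun_prop) only [deriv_fun_add, deriv_fun_sub, deriv_fun_mul, deriv_fun_pow,
      deriv_const, deriv_id''] <;>
    simp [MQ, Matrix.mulVec, dotProduct, Fin.sum_univ_succ, -mul_eq_mul_right_iff,
      -mul_eq_mul_left_iff] <;>
    ring

theorem qc_hom (z a Q c t : ℝ) : qc (z * a) (z * Q) (z * c) (z * t) = z ^ 8 * qc a Q c t := by
  unfold qc
  ring

/-- The good parameters. -/
def Good (ν : Fin 4 → ℝ) : Prop :=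
  0 < ν 0 ∧ 0 < ν 1 ∧ 0 < ν 2 ∧ 0 < ν 0 + ν 3 ∧ 0 < ν 1 + ν 3 ∧
    2 * ν 0 + 2 * ν 1 + ν 2 + 2 * ν 3 = 1 ∧
    0 < qc (ν 0 + ν 1) (ν 1) (ν 1 + ν 3) (ν 1 + ν 2 + ν 3)

/-- Two points joined by a segment of good parameters have the same sign. -/
theorem same_pos (h1 : L_DET) (x y : Fin 4 → ℝ)
    (h : ∀ s ∈ Set.Icc (0 : ℝ) 1, Good (x + s • (y - x))) (hx : 0 < jac (PN x) (kn x)) :
    0 < jac (PN y) (kn y) := by
  by_contra hcon
  have hneg : jac (PN y) (kn y) ≤ 0 := not_lt.1 hcon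
  let G : ℝ → ℝ := fun s ↦ jac (PN (x + s • (y - x))) (kn (x + s • (y - x)))
  have hG : Continuous G := g_cont.comp (by fun_prop)
  have h0 : G 0 = jac (PN x) (kn x) := by
    have : G 0 = jac (PN (x + (0 : ℝ) • (y - x))) (kn (x + (0 : ℝ) • (y - x))) := rfl
    rw [this, zero_smul, add_zero]
  have h2 : G 1 = jac (PN y) (kn y) := by
    have : G 1 = jac (PN (x + (1 : ℝ) • (y - x))) (kn (x + (1 : ℝ) • (y - x))) := rfl
    rw [this, one_smul, add_sub_cancel]
  have hmem : (0 : ℝ) ∈ Set.Icc (G 1) (G 0) := by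
    rw [h0, h2]
    exact ⟨hneg, hx.le⟩
  obtain ⟨s, hs01, hs0⟩ := intermediate_value_Icc' (zero_le_one : (0 : ℝ) ≤ 1) hG.continuousOn hmem
  obtain ⟨a1, a2, a3, a4, a5, a6, a7⟩ := h s hs01
  exact h1 _ _ _ _ a1 a2 a3 a4 a5 a6 a7.ne' hs0

/-- **L_SGN**. -/
theorem l_sgn (h1 : L_DET) (h2 : C_POS) : L_SGN := by
  intro P Q M E hP hQ hM hPE hQE hN hpath
  have hN0 : 0 < 2 * P + 2 * Q + M := by positivity
  set z : ℝ := (2 * P + 2 * Q + M)⁻¹ with hz
  have hz0 : 0 < z := inv_pos.2 hN0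
  have hzN : z * (2 * P + 2 * Q + M) = 1 := inv_mul_cancel₀ hN0.ne'
  -- the point with `E = 0`
  let x1 : Fin 4 → ℝ := ![z * P, z * Q, z * M, 0]
  let x2 : Fin 4 → ℝ := ![P, Q, M, E]
  have hqq : 0 < jac (PN qq) (kn qq) := by
    rw [jac_qq]
    norm_num
  have hx1 : 0 < jac (PN x1) (kn x1) := by
    refine same_pos h1 qq x1 ?_ hqq
    intro s hs
    have e0 : (qq + s • (x1 - qq)) 0 = (1 - s) * (1 / 6) + s * (z * P) := by
      show (1 / 6 : ℝ) + s * (z * P - 1 / 6) = _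
      ring
    have e1 : (qq + s • (x1 - qq)) 1 = (1 - s) * (1 / 6) + s * (z * Q) := by
      show (1 / 6 : ℝ) + s * (z * Q - 1 / 6) = _
      ring
    have e2 : (qq + s • (x1 - qq)) 2 = (1 - s) * (1 / 3) + s * (z * M) := by
      show (1 / 3 : ℝ) + s * (z * M - 1 / 3) = _
      ring
    have e3 : (qq + s • (x1 - qq)) 3 = 0 := by
      show (0 : ℝ) + s * (0 - 0) = _
      ring
    have pos : ∀ c d : ℝ, 0 < c → 0 < d → 0 < (1 - s) * c + s * d := by
      intro c d hc hd
      rcases eq_or_lt_of_le hs.1 with h3 | h3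
      · rw [← h3]
        simpa using hc
      · have h4 : 0 ≤ (1 - s) * c := mul_nonneg (by linarith [hs.2]) hc.le
        have h5 : 0 < s * d := mul_pos h3 hd
        linarith
    have p0 := pos (1 / 6) (z * P) (by norm_num) (by positivity)
    have p1 := pos (1 / 6) (z * Q) (by norm_num) (by positivity)
    have p2 := pos (1 / 3) (z * M) (by norm_num) (by positivity)
    unfold Good
    rw [e0, e1, e2, e3]
    refine ⟨p0, p1, p2, by simpa using p0, by simpa using p1, ?_, ?_⟩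
    · linear_combination s * hzN
    · exact h2.1 _ _ _ _ (by simpa using p0) (by simpa using p1) p2 le_rfl
  have hx2 : 0 < jac (PN x2) (kn x2) := by
    refine same_pos h1 x1 x2 ?_ hx1
    intro s hs
    set c : ℝ := (1 - s) * z + s with hc
    have hc0 : 0 < c := by
      rcases eq_or_lt_of_le hs.1 with h3 | h3
      · rw [hc, ← h3]
        simpa using hz0
      · have h4 : 0 ≤ (1 - s) * z := mul_nonneg (by linarith [hs.2]) hz0.le
        linarith
    have e0 : (x1 + s • (x2 - x1)) 0 = c * P := by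
      show z * P + s * (P - z * P) = _
      rw [hc]
      ring
    have e1 : (x1 + s • (x2 - x1)) 1 = c * Q := by
      show z * Q + s * (Q - z * Q) = _
      rw [hc]
      ring
    have e2 : (x1 + s • (x2 - x1)) 2 = c * M := by
      show z * M + s * (M - z * M) = _
      rw [hc]
      ring
    set τ : ℝ := s / c with hτ
    have hcτ : c * τ = s := by
      rw [hτ]
      field_simp
    have e3 : (x1 + s • (x2 - x1)) 3 = c * (τ * E) := by
      show (0 : ℝ) + s * (E - 0) = _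
      rw [← mul_assoc, hcτ]
      ring
    have hτ0 : 0 ≤ τ := div_nonneg hs.1 hc0.le
    have hτ1 : τ ≤ 1 := by
      rw [hτ, div_le_one hc0, hc]
      have h4 : 0 ≤ (1 - s) * z := mul_nonneg (by linarith [hs.2]) hz0.le
      linarith
    have pe : ∀ d : ℝ, 0 < d → 0 < d + E → 0 < d + τ * E := by
      intro d hd hdE
      rcases le_or_gt 0 E with hE | hE
      · have := mul_nonneg hτ0 hE
        linarith
      · nlinarith [mul_nonneg (by linarith : (0 : ℝ) ≤ 1 - τ) (by linarith : (0 : ℝ) ≤ -E)]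
    have q0 := mul_pos hc0 (pe P hP hPE)
    have q1 := mul_pos hc0 (pe Q hQ hQE)
    have hq := hpath τ ⟨hτ0, hτ1⟩
    unfold Good
    rw [e0, e1, e2, e3]
    refine ⟨mul_pos hc0 hP, mul_pos hc0 hQ, mul_pos hc0 hM, by linarith, by linarith, ?_, ?_⟩
    · have h5 : c * (τ * E) = s * E := by rw [← mul_assoc, hcτ]
      rw [h5, hc]
      linear_combination (1 - s) * hzN + s * hN
    · have h6 : qc (c * P + c * Q) (c * Q) (c * Q + c * (τ * E)) (c * Q + c * M + c * (τ * E)) =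
          c ^ 8 * qc (P + Q) Q (Q + τ * E) (Q + M + τ * E) := by
        rw [← qc_hom]
        congr 1 <;> ring
      rw [h6]
      positivity
  show sg (jac (PN x2) (kn x2)) = 1
  unfold sg
  rw [sign_pos hx2]
  rfl

end Pool.Agent.Helper33.DH
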